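import Pool.Agent.R255.CampF

set_option autoImplicit false

/-!
# MP_c4ccc8_an: majorization of derivatives under subordination in `U_α` (Campbell)

If `F ∈ U_α`, `α ≥ 1`, `f ≺ F` and `f'(0) ≥ 0`, then `|f'(z)| ≤ |F'(z)|` for
`|z| < ρ(α) = α + 1 - √(α² + 2α)`.
-/

namespace Pool.Agent.Results.MP_c4ccc8_an.CampbellMajorization

open Complex Metric

/-- The class `U_α`: normalized locally univalent functions on the unit disc of order at most
`α`, i.e. `|-conj z + (1 - |z|²) F''(z) / (2 F'(z))| ≤ α` for every `z` in the disc. -/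
structure MemU (α : ℝ) (F : ℂ → ℂ) : Prop where
  differentiableOn : DifferentiableOn ℂ F (ball 0 1)
  deriv_ne_zero : ∀ z : ℂ, ‖z‖ < 1 → deriv F z ≠ 0
  map_zero : F 0 = 0
  deriv_zero : deriv F 0 = 1
  order_le : ∀ z : ℂ, ‖z‖ < 1 →
    ‖-(starRingEnd ℂ) z + (1 - (‖z‖ : ℂ) ^ 2) * deriv (deriv F) z / (2 * deriv F z)‖ ≤ α

/-- `f ≺ F`: `f = F ∘ w` on the unit disc, with `w` holomorphic there and `|w z| ≤ |z|`. -/
def Subordinate (f F : ℂ → ℂ) : Prop :=
  ∃ w : ℂ → ℂ, DifferentiableOn ℂ w (ball 0 1) ∧ (∀ z : ℂ, ‖z‖ < 1 → ‖w z‖ ≤ ‖z‖) ∧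
    ∀ z : ℂ, ‖z‖ < 1 → f z = F (w z)

/-- `ρ(α) = α + 1 - √(α² + 2α)`. -/
noncomputable def rho (α : ℝ) : ℝ := α + 1 - √(α ^ 2 + 2 * α)

/-- Campbell's conjecture, for every `α ≥ 1` (in particular for `1 < α < 1.65`). -/
theorem result (α : ℝ) (hα : 1 ≤ α) (F f : ℂ → ℂ) (hF : MemU α F) (hf : Subordinate f F)
    (h0 : (deriv f 0).im = 0 ∧ 0 ≤ (deriv f 0).re) (z : ℂ) (hz : ‖z‖ < rho α) :
    ‖deriv f z‖ ≤ ‖deriv F z‖ := by
  obtain ⟨w, hw, hwz, hfw⟩ := hf
  have hz1 : ‖z‖ < 1 := (Pool.Agent.R255.Camp.radius_facts hα (norm_nonneg z) hz).1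
  have hev : ∀ x : ℂ, ‖x‖ < 1 → deriv f x = deriv (fun y => F (w y)) x := by
    intro x hx
    apply Filter.EventuallyEq.deriv_eq
    filter_upwards [isOpen_ball.mem_nhds (show x ∈ ball (0 : ℂ) 1 by simpa using hx)] with y hy
    exact hfw y (by simpa using hy)
  have hw0 : w 0 = 0 := by
    have := hwz 0 (by simp)
    rw [norm_zero] at this
    exact norm_le_zero_iff.mp this
  have h0b : (0 : ℂ) ∈ ball (0 : ℂ) 1 := by simp
  have hd0 : deriv f 0 = deriv w 0 := by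
    rw [hev 0 (by simp)]
    have h1 : HasDerivAt F (deriv F (w 0)) (w 0) := by
      rw [hw0]
      exact (hF.differentiableOn.differentiableAt (isOpen_ball.mem_nhds h0b)).hasDerivAt
    have h2 : HasDerivAt w (deriv w 0) 0 :=
      (hw.differentiableAt (isOpen_ball.mem_nhds h0b)).hasDerivAt
    have h3 := (h1.comp (0 : ℂ) h2).deriv
    rw [hw0, hF.deriv_zero, one_mul] at h3
    exact h3
  have hwa : deriv w 0 = (((deriv f 0).re : ℝ) : ℂ) := by
    rw [← hd0]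
    apply Complex.ext
    · simp
    · simp [h0.1]
  rw [hev z hz1]
  exact Pool.Agent.R255.Camp.main hα hF.differentiableOn hF.deriv_ne_zero hF.order_le hw hwz h0.2
    hwa hz

end Pool.Agent.Results.MP_c4ccc8_an.CampbellMajorization
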